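import Pool.Agent.Helper590.Tors6.Assemble

set_option autoImplicit false

namespace Pool.Agent.Results.MP_71a505_nt.TorsionSixConstraints

/-- Let `0 < a < b < c` be integers such that `ab+1, ac+1, bc+1` are squares, and let `E` be the
curve `y² = (ax+1)(bx+1)(cx+1)`, written (with `X = abc x`, `Y = abc y`) in the Weierstrass form
`Y² = (X+ab)(X+ac)(X+bc)`.  If the rational torsion of `E` is isomorphic to `ℤ/2 × ℤ/6`, then
all of the following hold. -/
theorem result (a b c : ℤ) (ha : 0 < a) (hab : a < b) (hbc : b < c)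
    (h1 : IsSquare (a * b + 1)) (h2 : IsSquare (a * c + 1)) (h3 : IsSquare (b * c + 1))
    (htors : Nonempty
        (↥(AddCommGroup.torsion
            (({ a₁ := 0,
                a₂ := (a * b + a * c + b * c : ℚ),
                a₃ := 0,
                a₄ := (a * b * (a * c) + a * b * (b * c) + a * c * (b * c) : ℚ),
                a₆ := (a * b * (a * c) * (b * c) : ℚ) } :
                WeierstrassCurve ℚ).toAffine.Point))
          ≃+ ZMod 2 × ZMod 6)) :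
    -- the triple is not regular
    (∀ r : ℤ, r ^ 2 = a * b + 1 → c ≠ a + b + 2 * r) ∧
    -- the three products are divisible by 48
    (48 ∣ a * b ∧ 48 ∣ a * c ∧ 48 ∣ b * c) ∧
    -- size constraints
    4 * a * b < c ∧ (3000 * c) ^ 3 < a ^ 2 * b ^ 7 ∧
    (20 * a) ^ 4 < b * (b - a) ^ 4 ∧ 1146 ^ 4 * a < b ^ 4 ∧
    -- a cubic condition on the triple divided by its greatest common divisor
    (∀ g a' b' c' : ℤ, 0 < g → a = g * a' → b = g * b' → c = g * c' →
      (∀ p : ℕ, p.Prime → ¬ ((p : ℤ) ∣ a' ∧ (p : ℤ) ∣ b' ∧ (p : ℤ) ∣ c')) →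
      ∃ p : ℕ, p.Prime ∧
        (((p : ℤ) ∣ a' ∧ (p : ℤ) ∣ c' - b' ∧ (p : ℤ) ^ 3 ∣ a' * (c' - b')) ∨
         ((p : ℤ) ∣ b' ∧ (p : ℤ) ∣ c' - a' ∧ (p : ℤ) ^ 3 ∣ b' * (c' - a')) ∨
         ((p : ℤ) ∣ c' ∧ (p : ℤ) ∣ b' - a' ∧ (p : ℤ) ^ 3 ∣ c' * (b' - a')))) := by
  obtain ⟨P, hP, h3P⟩ := Pool.Agent.Helper590.Tors6.exists_order3 _ htors
  exact Pool.Agent.Helper590.Tors6.curve_main a b c ha hab hbc h1 h2 h3 _ rfl rfl rfl rfl rfl
    P hP h3P

end Pool.Agent.Results.MP_71a505_nt.TorsionSixConstraints
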